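import Pool.Agent.H.MP_67a05c_an.D

set_option autoImplicit false
set_option maxHeartbeats 400000

namespace Pool.Agent.Results.MP_67a05c_an.Korn

open Pool.Agent.H.MP_67a05c_an MvPolynomial Finset MeasureTheory Metric
open scoped ContDiff

/-- The entry `∂ u_i / ∂ x_j` of the matrix `∇ u (x)`. -/
noncomputable def D {n : ℕ} (u : EuclideanSpace ℝ (Fin n) → EuclideanSpace ℝ (Fin n))
    (x : EuclideanSpace ℝ (Fin n)) (i j : Fin n) : ℝ :=
  fderiv ℝ (fun y => u y i) x (EuclideanSpace.single j 1)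

/-- Korn's inequality in the second case, with constant `K`, on the unit ball of `ℝ^n`. -/
def KornIneq (n : ℕ) (K : ℝ) : Prop :=
  ∀ u : EuclideanSpace ℝ (Fin n) → EuclideanSpace ℝ (Fin n), ContDiffOn ℝ ∞ u (closedBall 0 1) →
    (∀ i j, ∫ x in ball 0 1, (D u x i j - D u x j i) = 0) →
      ∫ x in ball 0 1, ∑ i, ∑ j, D u x i j ^ 2 ≤
        K * ∫ x in ball 0 1, ∑ i, ∑ j, ((D u x i j + D u x j i) / 2) ^ 2

lemma split {n : ℕ} (K : ℝ) {G : Fin n → Fin n → V n → ℝ}
    (h : ∀ i j k l, IntegrableOn (fun x => G i j x * G k l x) (ball 0 1)) :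
    ∑ i, ∑ j, ∫ x in ball 0 1, G i j x * ((K - 2) * G i j x + K * G j i x) =
      2 * (K * (∫ x in ball 0 1, ∑ i, ∑ j, ((G i j x + G j i x) / 2) ^ 2) -
        ∫ x in ball 0 1, ∑ i, ∑ j, G i j x ^ 2) := by
  have a : ∀ i j x, G i j x * ((K - 2) * G i j x + K * G j i x) =
    (K - 2) * (G i j x * G i j x) + K * (G i j x * G j i x) := fun _ _ _ => by ring
  have b : ∀ x, ∑ i, ∑ j, ((G i j x + G j i x) / 2) ^ 2 =
      ∑ i, ∑ j, (1 / 2 * (G i j x * G i j x) + 1 / 2 * (G i j x * G j i x)) := fun x => by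
    have : ∀ i j, ((G i j x + G j i x) / 2) ^ 2 = 1 / 4 * (G i j x * G i j x) +
      1 / 4 * (G j i x * G j i x) + 1 / 2 * (G i j x * G j i x) := fun _ _ => by ring
    simp only [this, sum_add_distrib, ← mul_sum, sum_comm (f := fun i j => G j i x * G j i x)]
    ring
  have c : ∀ (s t : ℝ) i j, Integrable (fun x => s * (G i j x * G i j x) + t * (G i j x * G j i x))
    (volume.restrict (ball 0 1)) := fun s t i j => ((h i j i j).const_mul s).add ((h i j j i).const_mul t)
  simp only [a, b]
  simp only [sq]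
  rw [integral_finsetSum _ fun i _ => integrable_finsetSum _ fun j _ => c _ _ i j,
    integral_finsetSum _ fun i _ => integrable_finsetSum _ fun j _ => h i j i j]
  have d := fun i => integral_finsetSum univ fun j _ => c (1 / 2) (1 / 2) i j
  have e := fun i => integral_finsetSum univ fun j _ => h i j i j
  simp only [d, e]
  simp only [integral_add ((h _ _ _ _).const_mul _) ((h _ _ _ _).const_mul _), integral_const_mul,
    sum_add_distrib, ← mul_sum]
  ring

theorem result (n k : ℕ) (hn : 3 ≤ n) (h1 : k * (k - 1) ≤ n) (h2 : n ≤ k * (k + 1)) :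
    IsLeast {K : ℝ | KornIneq n K} (4 + 2 * ((n : ℝ) - 2) * k / (k ^ 2 + 3 * k + n)) := by
  have n3 : (3 : ℝ) ≤ n := by exact_mod_cast hn
  have D0 : (0 : ℝ) < k ^ 2 + 3 * k + n := by positivity
  obtain ⟨K, hK⟩ : ∃ K : ℝ, K = 4 + 2 * ((n : ℝ) - 2) * k / (k ^ 2 + 3 * k + n) := ⟨_, rfl⟩
  have e : K * (k ^ 2 + 3 * k + n) = 4 * (k ^ 2 + 3 * k + n) + 2 * (n - 2) * k := by
    rw [hK, add_mul, div_mul_cancel₀ _ D0.ne']
  have K4 : 4 ≤ K := hK ▸ le_add_of_nonneg_right (div_nonneg (mul_nonneg (by linarith) k.cast_nonneg) D0.le)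
  obtain ⟨k, rfl⟩ : ∃ j, k = j + 2 := ⟨k - 2, by rcases k with _ | _ | k <;> omega⟩
  rw [← hK]
  constructor
  · intro u hu hW
    have hi : ∀ i, ContDiffOn ℝ ∞ (fun y => u y i) (closedBall 0 1) := fun i =>
      (EuclideanSpace.proj i : V n →L[ℝ] ℝ).contDiff.comp_contDiffOn hu
    have a := Ψ_main hn K4 (fun m => le_of_mul_le_mul_right ?_ D0) hi
    · have c := fun i j => ((hi i).continuousOn_fderivWithin (uniqueDiffOn_convex (convex_closedBall _ _)
        ⟨0, mem_interior_iff_mem_nhds.2 (closedBall_mem_nhds _ one_pos)⟩) (by simp)).clm_apply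
        (continuousOn_const (c := EuclideanSpace.single j 1))
      simp only [D] at hW ⊢
      simp only [Ψ, AV, neg_one_mul, ← sub_eq_add_neg, hW, mul_zero, add_zero] at a
      rw [split K fun i j k l => (cint ((c i j).mul (c k l))).congr_fun (fun x hx => by
        simp only [Pi.mul_apply, fderivWithin_of_mem_nhds
          (Filter.mem_of_superset (isOpen_ball.mem_nhds hx) ball_subset_closedBall)])
        measurableSet_ball] at a
      linarith
    · have : (0 : ℝ) ≤ ((k + 2 : ℕ) + 1 - m) * (n - (m - 1) * (k + 2 : ℕ)) := by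
        have a1 : ((k + 2 : ℕ) : ℝ) * (k + 1) ≤ n := by exact_mod_cast h1
        have a2 : (n : ℝ) ≤ (k + 2 : ℕ) * ((k + 2 : ℕ) + 1) := by exact_mod_cast h2
        have a0 : (0 : ℝ) ≤ (k + 2 : ℕ) := by positivity
        rcases lt_trichotomy m (k + 3) with o | rfl | o
        · have : (m : ℝ) ≤ k + 2 := by exact_mod_cast Nat.le_of_lt_succ o
          exact mul_nonneg (by push_cast; linarith) (by nlinarith)
        · push_cast; exact le_of_eq (by ring)
        · have : (k : ℝ) + 4 ≤ m := by exact_mod_cast o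
          exact mul_nonneg_of_nonpos_of_nonpos (by push_cast; linarith) (by push_cast at *; nlinarith)
      rw [mul_right_comm K, e]
      nlinarith [mul_nonneg this (by linarith : (0 : ℝ) ≤ n - 2)]
  · intro K' hK'
    obtain ⟨u, u1, u2, u3⟩ := sharp hII hn K4 (m := k + 3) (by omega) (by
      rcases k with _ | k
      · omega
      · simp at h1; nlinarith) (by push_cast at e ⊢; linarith)
    have d : ∀ x i j, D (fun x => WithLp.toLp 2 fun i => ev (u i) x) x i j = ev (pderiv j (u i)) x :=
      fun x i j => ev_d _ _ _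
    have a := hK' (fun x => WithLp.toLp 2 fun i => ev (u i) x)
      (contDiff_euclidean.2 fun i => ev_sm _).contDiffOn fun i j => by
        simpa only [d, II_eq, ev_sub] using u1 i j
    have c := fun i j k l => cint ((ev_sm (pderiv j (u i))).continuous.mul
      (ev_sm (pderiv l (u k))).continuous).continuousOn
    rw [Ψ_BB, split K c] at u2
    simp only [d] at a
    obtain ⟨i, -, hi⟩ := exists_ne_zero_of_sum_ne_zero u3
    have p : 0 < ∫ x in ball 0 1, ∑ i, ∑ j, ev (pderiv j (u i)) x ^ 2 := by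
      have q : ∀ i j, 0 ≤ II n (pderiv j (u i) * pderiv j (u i)) := fun i j => hII.pos _
      have := ((q i i).lt_of_ne' fun h => hi (hII.pd _ h)).trans_le
        ((single_le_sum (fun j _ => q i j) (mem_univ i)).trans
          (single_le_sum (fun i _ => sum_nonneg fun j _ => q i j) (mem_univ i)))
      simp only [← map_sum] at this
      simpa only [II_eq, ev, map_sum (eval _), map_mul, sq] using this
    by_contra! h
    nlinarith

end Pool.Agent.Results.MP_67a05c_an.Korn
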